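import Mathlib

namespace Pool.Agent.Results.MP_409260_co.Join

open SimpleGraph

/-- vertex set of the ball of radius r around v -/
def ball {V : Type} (G : SimpleGraph V) (v : V) (r : ℕ) : Set V := {u | G.edist u v ≤ r}

/-- all balls of radius r have k vertices and are pairwise isomorphic as rooted graphs -/
def UniformBalls {V : Type} (G : SimpleGraph V) (r k : ℕ) : Prop :=
  (∀ v, (ball G v r).ncard = k) ∧
    ∀ v w, ∃ e : G.induce (ball G v r) ≃g G.induce (ball G w r),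
      ∀ hv : v ∈ ball G v r, (e ⟨v, hv⟩ : V) = w

def VertexTransitive {V : Type} (G : SimpleGraph V) : Prop :=
  ∀ u v, ∃ φ : G ≃g G, φ u = v

/-- C4 on 0..3 and C5 on 4..8 -/
def nx : Fin 9 → Fin 9 := ![1, 2, 3, 0, 5, 6, 7, 8, 4]

def hadj (a b : Fin 9) : Prop := nx a = b ∨ nx b = a

instance : DecidableRel hadj := fun a b => by unfold hadj; infer_instance

def tau : Fin 9 → Fin 9 → Fin 9 :=
  ![![0,1,3,2,4,5,6,7,8], ![1,2,0,3,4,5,6,7,8], ![2,3,1,0,4,5,6,7,8], ![3,0,2,1,4,5,6,7,8],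
    ![4,5,8,0,1,2,3,6,7], ![5,6,4,0,1,2,3,7,8], ![6,7,5,0,1,2,3,4,8], ![7,8,6,0,1,2,3,4,5],
    ![8,4,7,0,1,2,3,5,6]]

lemma tau_bij : ∀ a, Function.Bijective (tau a) := by decide +kernel

noncomputable def T (a : Fin 9) : Fin 9 ≃ Fin 9 := Equiv.ofBijective _ (tau_bij a)

lemma tau0 : ∀ a, tau a 0 = a := by decide
lemma tau_mem : ∀ a y, (tau a y = a ∨ hadj (tau a y) a) ↔ y.val < 3 := by decide +kernel
lemma tau_adj : ∀ a y z, y.val < 3 → z.val < 3 →
    (hadj (tau a y) (tau a z) ↔ (y ≠ z ∧ (y = 0 ∨ z = 0))) := by decide +kernel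

def G (m : ℕ) : SimpleGraph (Fin m × Fin 9) where
  Adj x y := x.1 ≠ y.1 ∨ hadj x.2 y.2
  symm := ⟨fun x y h => by
    rcases h with h | h
    · exact Or.inl (Ne.symm h)
    · exact Or.inr (Or.symm h)⟩
  loopless := ⟨fun x h => by
    rcases h with h | h
    · exact h rfl
    · revert h; generalize x.2 = a; revert a; decide⟩

lemma mem_ball (m : ℕ) (v u : Fin m × Fin 9) :
    u ∈ ball (G m) v 1 ↔ (u.1 ≠ v.1 ∨ u.2 = v.2 ∨ hadj u.2 v.2) := by
  simp only [ball, Set.mem_setOf_eq, Nat.cast_one, edist_le_one_iff_adj_or_eq]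
  constructor
  · rintro (h | h)
    · rcases h with h | h
      · exact Or.inl h
      · exact Or.inr (Or.inr h)
    · subst h; simp
  · rintro (h | h | h)
    · exact Or.inl (Or.inl h)
    · by_cases h1 : u.1 = v.1
      · exact Or.inr (Prod.ext h1 h)
      · exact Or.inl (Or.inl h1)
    · exact Or.inl (Or.inr h)

/-- the bijection of the vertex set -/
noncomputable def F (m : ℕ) (v w : Fin m × Fin 9) : (Fin m × Fin 9) ≃ (Fin m × Fin 9) :=
  (Equiv.prodCongrRight (fun x => if x = v.1 then (T v.2).symm.trans (T w.2) else Equiv.refl _)).trans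
    (Equiv.prodCongr (Equiv.swap v.1 w.1) (Equiv.refl _))

lemma F_fst (m : ℕ) (v w u : Fin m × Fin 9) : (F m v w u).1 = Equiv.swap v.1 w.1 u.1 := by
  simp [F, Equiv.prodCongrRight]

lemma F_snd (m : ℕ) (v w u : Fin m × Fin 9) :
    (F m v w u).2 = if u.1 = v.1 then tau w.2 ((T v.2).symm u.2) else u.2 := by
  by_cases h : u.1 = v.1 <;> simp [F, Equiv.prodCongrRight, h, T]

lemma T_symm (a y : Fin 9) : tau a ((T a).symm y) = y := (T a).apply_symm_apply y

lemma F_mem (m : ℕ) (v w u : Fin m × Fin 9) :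
    u ∈ ball (G m) v 1 ↔ F m v w u ∈ ball (G m) w 1 := by
  rw [mem_ball, mem_ball, F_fst, F_snd]
  by_cases h : u.1 = v.1
  · rw [if_pos h, h, Equiv.swap_apply_left]
    simp only [ne_eq, not_true_eq_false, false_or]
    rw [tau_mem, ← tau_mem v.2, T_symm]
  · have : Equiv.swap v.1 w.1 u.1 ≠ w.1 := by
      intro h2
      apply h
      have := congrArg (Equiv.swap v.1 w.1) h2
      simpa using this
    simp [h, this]

lemma F_adj (m : ℕ) (v w u u' : Fin m × Fin 9) (hu : u ∈ ball (G m) v 1)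
    (hu' : u' ∈ ball (G m) v 1) :
    (G m).Adj (F m v w u) (F m v w u') ↔ (G m).Adj u u' := by
  show ((F m v w u).1 ≠ (F m v w u').1 ∨ hadj (F m v w u).2 (F m v w u').2) ↔
    (u.1 ≠ u'.1 ∨ hadj u.2 u'.2)
  rw [F_fst, F_fst, F_snd, F_snd]
  rw [mem_ball] at hu hu'
  by_cases h0 : u.1 = u'.1
  · simp only [h0, ne_eq, not_true_eq_false, false_or]
    by_cases h : u'.1 = v.1
    · simp only [h, if_true]
      have h1 : ((T v.2).symm u.2).val < 3 := by
        rw [← tau_mem v.2, T_symm]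
        rcases hu with hu | hu
        · exact absurd (h0.trans h) hu
        · exact hu
      have h2 : ((T v.2).symm u'.2).val < 3 := by
        rw [← tau_mem v.2, T_symm]
        rcases hu' with hu' | hu'
        · exact absurd h hu'
        · exact hu'
      rw [tau_adj _ _ _ h1 h2, ← tau_adj v.2 _ _ h1 h2, T_symm, T_symm]
    · simp [h]
  · have : Equiv.swap v.1 w.1 u.1 ≠ Equiv.swap v.1 w.1 u'.1 :=
      fun h => h0 ((Equiv.swap v.1 w.1).injective h)
    simp [h0, this]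

lemma F_root (m : ℕ) (v w : Fin m × Fin 9) : F m v w v = w := by
  apply Prod.ext
  · rw [F_fst, Equiv.swap_apply_left]
  · rw [F_snd, if_pos rfl]
    have : (T v.2).symm v.2 = 0 := by
      rw [Equiv.symm_apply_eq]; exact (tau0 _).symm
    rw [this, tau0]

lemma card6 : ∀ a : Fin 9,
    (Finset.univ.filter (fun y : Fin 9 => ¬ (y = a ∨ hadj y a))).card = 6 := by decide +kernel

lemma card_ball (m : ℕ) (v : Fin m × Fin 9) : (ball (G m) v 1).ncard + 6 = 9 * m := by
  have h1 : (ball (G m) v 1)ᶜ =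
      (fun y => (v.1, y)) '' {y : Fin 9 | ¬ (y = v.2 ∨ hadj y v.2)} := by
    ext u
    rw [Set.mem_compl_iff, mem_ball]
    constructor
    · intro h
      push Not at h
      refine ⟨u.2, ?_, Prod.ext h.1.symm rfl⟩
      simp [h.2.1, h.2.2]
    · rintro ⟨y, hy, rfl⟩
      simpa using hy
  have h2 : ∀ a : Fin 9, ({y : Fin 9 | ¬ (y = a ∨ hadj y a)} : Set (Fin 9)).ncard = 6 := by
    intro a
    have : ({y : Fin 9 | ¬ (y = a ∨ hadj y a)} : Set (Fin 9)) =
        ((Finset.univ.filter (fun y : Fin 9 => ¬ (y = a ∨ hadj y a)) : Finset (Fin 9)) : Set (Fin 9)) := by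
      ext y; simp
    rw [this, Set.ncard_coe_finset]
    exact card6 a
  have h3 : ((ball (G m) v 1)ᶜ).ncard = 6 := by
    rw [h1, Set.ncard_image_of_injective _ (fun a b h => (Prod.ext_iff.1 h).2), h2]
  have h4 := Set.ncard_add_ncard_compl (ball (G m) v 1)
  rw [h3] at h4
  rw [h4]; simp [mul_comm]

lemma not_vt (m : ℕ) (hm : 1 ≤ m) : ¬ VertexTransitive (G m) := by
  intro h
  let i : Fin m := ⟨0, hm⟩
  obtain ⟨φ, hφ⟩ := h (i, 0) (i, 4)
  have tw : ∀ x, (G m).Adj (i, 0) x ↔ (G m).Adj (i, 2) x := by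
    intro x
    show (i ≠ x.1 ∨ hadj 0 x.2) ↔ (i ≠ x.1 ∨ hadj 2 x.2)
    have : ∀ y : Fin 9, hadj 0 y ↔ hadj 2 y := by decide
    rw [this]
  have tw2 : ∀ x, (G m).Adj (i, 4) x ↔ (G m).Adj (φ (i, 2)) x := by
    intro x
    obtain ⟨y, rfl⟩ := φ.surjective x
    rw [← hφ, φ.map_adj_iff, φ.map_adj_iff, tw]
  have hne : φ (i, 2) ≠ (i, 4) := by
    rw [← hφ]
    intro h
    have := φ.injective h
    simp at this
  generalize φ (i, 2) = t at tw2 hne
  obtain ⟨j, b⟩ := t
  by_cases hj : j = i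
  · subst hj
    have hb : b ≠ 4 := fun h => hne (by rw [h])
    have h5 : hadj 4 5 ↔ hadj b 5 := by
      have := tw2 (i, 5)
      simpa [G] using this
    have h8 : hadj 4 8 ↔ hadj b 8 := by
      have := tw2 (i, 8)
      simpa [G] using this
    revert h5 h8 hb
    generalize b = c
    revert c; decide
  · have : (G m).Adj (j, b) (i, 4) := Or.inl hj
    exact (G m).irrefl ((tw2 _).2 this)

lemma ediam_G (m : ℕ) (hm : 2 ≤ m) : (G m).ediam = 2 := by
  apply le_antisymm
  · rw [ediam_le_iff]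
    intro u v
    by_cases h : u.1 = v.1
    · have : ∃ j : Fin m, j ≠ u.1 := by
        haveI : Nontrivial (Fin m) := Fin.nontrivial_iff_two_le.2 hm
        exact exists_ne _
      obtain ⟨j, hj⟩ := this
      have a1 : (G m).Adj u (j, 0) := Or.inl hj.symm
      have a2 : (G m).Adj (j, 0) v := Or.inl (by rw [← h]; exact hj)
      have := (G m).edist_le (Walk.cons a1 (Walk.cons a2 Walk.nil))
      simpa using this
    · have a1 : (G m).Adj u v := Or.inl h
      rw [edist_eq_one_iff_adj.2 a1]; norm_num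
  · let i : Fin m := ⟨0, by omega⟩
    refine le_trans ?_ (edist_le_ediam (u := (i, 0)) (v := (i, 2)))
    by_contra hlt
    have h1 : (G m).edist (i, 0) (i, 2) ≤ 1 := by
      rw [not_le] at hlt
      exact Order.le_of_lt_succ hlt
    rw [edist_le_one_iff_adj_or_eq] at h1
    rcases h1 with h1 | h1
    · rcases h1 with h1 | h1
      · exact h1 rfl
      · exact absurd (show hadj 0 2 from h1) (by decide)
    · simp at h1

theorem result (ε : ℝ) (hε : 0 < ε) :
    ∃ (V : Type) (_ : Fintype V) (G : SimpleGraph V) (k : ℕ),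
      Fintype.card V < 2 * k ∧ k < Fintype.card V ∧ (1 - ε) * Fintype.card V ≤ k ∧
      G.ediam = 2 ∧ UniformBalls G 1 k ∧ ¬ VertexTransitive G := by
  obtain ⟨m0, hm0⟩ := exists_nat_gt (1 / ε)
  have hm : 2 ≤ m0 + 2 := by omega
  refine ⟨Fin (m0 + 2) × Fin 9, inferInstance, G (m0 + 2), 9 * m0 + 12, ?_, ?_, ?_,
    ediam_G _ hm, ⟨?_, ?_⟩, not_vt _ (by omega)⟩
  · simp; omega
  · simp; omega
  · simp only [Fintype.card_prod, Fintype.card_fin]
    push_cast
    rw [div_lt_iff₀ hε] at hm0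
    nlinarith
  · intro v
    have := card_ball (m0 + 2) v
    omega
  · intro v w
    refine ⟨⟨(F _ v w).subtypeEquiv (fun u => F_mem _ v w u), ?_⟩, ?_⟩
    · rintro ⟨u, hu⟩ ⟨u', hu'⟩
      exact F_adj _ v w u u' hu hu'
    · intro hv
      exact F_root _ v w

end Pool.Agent.Results.MP_409260_co.Join
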